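import Pool.Agent.Q151.Dy.Main

/-!
# MP_2b4c46_gt: the supremum `s_b` of the topologies `τ_c` can be compatible and not Mackey
-/

set_option autoImplicit false

open Set Filter Topology

namespace Pool.Agent.Results.MP_2b4c46_gt.NotMackey

open Pool.Agent.Q151.Mackey Pool.Agent.Q151.Dy

/-- the group `H_b` of the points `k / b n` of the circle, as a set of homomorphisms `ℤ → ℝ/ℤ`
(a homomorphism `χ` is identified with `χ 1`) -/
def Hb (b : ℕ → ℕ) : Set (ℤ →+ T) :=
  {χ | ∃ (k : ℤ) (n : ℕ), χ 1 = (((k : ℝ) / (b n : ℝ) : ℝ) : T)}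

lemma Dy_iff {x : T} : x ∈ Dy ↔ ∃ (k : ℤ) (n : ℕ), x = (((k : ℝ) / (b2 n : ℝ) : ℝ) : T) := by
  constructor
  · rintro ⟨E, hE⟩
    obtain ⟨k, hk⟩ := dyadic_form hE
    refine ⟨k, E, ?_⟩
    rw [hk]
    unfold b2
    push_cast
    rfl
  · rintro ⟨k, n, rfl⟩
    refine ⟨n, ?_⟩
    rw [zsmul_coe, AddCircle.coe_eq_zero_iff]
    refine ⟨k, ?_⟩
    unfold b2
    push_cast
    field_simp
    simp

/-- For every D-sequence `b`, `λ_b` has the neighbourhood basis `(b n ℤ)` at `0`; the supremum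
`s_b` is a locally quasi-convex group topology.  For the D-sequence `b n = 2 ^ n` the character
group of `s_b` is `H_b` (so `s_b` is compatible with `λ_b`), and there is a (Hausdorff) locally
quasi-convex group topology `σ` on `ℤ` with character group `H_b` which is not coarser than `s_b`
(`s_b ≤ σ` means that `σ` is coarser than `s_b`); so `s_b` is not the Mackey topology. -/
theorem result :
    (∀ b : ℕ → ℕ, IsD b →
      (@nhds ℤ (lam b) 0).HasBasis (fun _ : ℕ => True) (fun n => {k : ℤ | (b n : ℤ) ∣ k}) ∧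
      @IsTopologicalAddGroup ℤ (sb b) _ ∧ LocallyQuasiConvex (sb b)) ∧
    ∃ b : ℕ → ℕ, (∀ n, b n = 2 ^ n) ∧ IsD b ∧ Chars (sb b) = Hb b ∧
      ∃ σ : TopologicalSpace ℤ, @IsTopologicalAddGroup ℤ σ _ ∧ @T2Space ℤ σ ∧
        LocallyQuasiConvex σ ∧ Chars σ = Hb b ∧ ¬ (sb b ≤ σ) := by
  have hH : ∀ τ : TopologicalSpace ℤ, @IsTopologicalAddGroup ℤ τ _ →
      (dual τ : Set T) = Dy → Chars τ = Hb b2 := by
    intro τ hg hd
    ext χ
    rw [mem_Chars, ← SetLike.mem_coe, hd, Dy_iff]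
    rfl
  refine ⟨fun b hb => ⟨lam_basis hb, sb_group b, sb_lqc b⟩, b2, fun _ => rfl, isD_b2,
    hH _ (sb_group b2) dual_sb, unif Sp, unif_group, t2_sigma, lqc_unif,
    hH _ unif_group dual_sigma, not_le⟩

end Pool.Agent.Results.MP_2b4c46_gt.NotMackey
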